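import Mathlib

set_option autoImplicit false

namespace Pool.Agent.Helper57.Force

universe u

/-- Propagation of 3-colourings. `Forced G A B C`: starting from an edge `x y` of `G` (with classes
`{x}`, `{y}`, `∅`), the three classes are obtained by repeatedly adding to one class a vertex which
has a neighbour in each of the other two classes. (The order of the classes is irrelevant.) In every
proper 3-colouring of `G` two vertices of the same class have the same colour and two vertices of
different classes have different colours. -/
inductive Forced {V : Type u} (G : SimpleGraph V) : Set V → Set V → Set V → Prop
  | edge (x y : V) : G.Adj x y → Forced G {x} {y} ∅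
  | swap (A B C : Set V) : Forced G A B C → Forced G B A C
  | rotate (A B C : Set V) : Forced G A B C → Forced G B C A
  | add (A B C : Set V) (z a b : V) : Forced G A B C → a ∈ A → b ∈ B → G.Adj z a → G.Adj z b →
      Forced G A B (insert z C)

/-- The local condition on a vertex `v`: it has at most three neighbours, or its neighbourhood
without one suitable vertex `x` (which need not be a neighbour) induces a connected graph. -/
def NearlyConnectedNbhd {V : Type u} (G : SimpleGraph V) (v : V) : Prop :=
  (G.neighborSet v).ncard ≤ 3 ∨ ∃ x : V, (G.induce (G.neighborSet v \ {x})).Preconnected

end Pool.Agent.Helper57.Force
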