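import Pool.Agent.Helper58.Scheme.Irr
import Pool.Agent.Helper58.Scheme.Root

set_option autoImplicit false

namespace Pool.Agent.Helper57.Force

open Pool.Agent.Helper58.Scheme
open scoped Classical

universe u

variable {V : Type u} {G : SimpleGraph V}

/-- the colours `a`, `b` and only these occur on `B` -/
def Bic (Q : V → Fin 4) (a b : Fin 4) (B : Set V) : Prop := ∀ x ∈ B, Q x = a ∨ Q x = b

/-- `B` is connected (walks inside `B`) -/
def Conn (G : SimpleGraph V) (B : Set V) : Prop :=
  ∀ x ∈ B, ∀ y ∈ B, ∃ p : G.Walk x y, ∀ z ∈ p.support, z ∈ B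

theorem Bic.linked {Q : V → Fin 4} {a b : Fin 4} {B : Set V} (hB : Bic Q a b B)
    (hc : Conn G B) {x y : V} (hx : x ∈ B) (hy : y ∈ B) (hxy : Q x ≠ Q y) : Linked G Q x y := by
  obtain ⟨p, hp⟩ := hc x hx y hy
  refine ⟨p, fun z hz => ?_⟩
  have h1 := hB x hx
  have h2 := hB y hy
  have h3 := hB z (hp z hz)
  rcases h1 with h1 | h1 <;> rcases h2 with h2 | h2 <;> rcases h3 with h3 | h3 <;>
    simp_all

theorem conn_insert {B : Set V} (hc : Conn G B) {y z : V} (hy : y ∈ B) (hyz : G.Adj y z) :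
    Conn G (insert z B) := by
  have key : ∀ x ∈ B, ∃ p : G.Walk x z, ∀ t ∈ p.support, t ∈ insert z B := by
    intro x hx
    obtain ⟨p, hp⟩ := hc x hx y hy
    refine ⟨p.concat hyz, fun t ht => ?_⟩
    rw [SimpleGraph.Walk.support_concat, List.mem_append] at ht
    rcases ht with ht | ht
    · exact Or.inr (hp t ht)
    · simp only [List.mem_singleton] at ht
      exact Or.inl ht
  intro x hx x' hx'
  rcases hx with rfl | hx <;> rcases hx' with rfl | hx'
  · exact ⟨SimpleGraph.Walk.nil, fun t ht => by simp at ht; exact Or.inl ht⟩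
  · obtain ⟨p, hp⟩ := key x' hx'
    refine ⟨p.reverse, fun t ht => hp t ?_⟩
    rwa [SimpleGraph.Walk.support_reverse, List.mem_reverse] at ht
  · exact key x hx
  · obtain ⟨p, hp⟩ := hc x hx x' hx'
    exact ⟨p, fun t ht => Or.inr (hp t ht)⟩

/-- leaving a proper nonempty subset of a connected set -/
theorem exists_exit {B C : Set V} (hC : Conn G C) (hBC : B ⊆ C) (hne : B.Nonempty) (hneq : B ≠ C) :
    ∃ y ∈ B, ∃ z ∈ C, z ∉ B ∧ G.Adj y z := by
  obtain ⟨x0, hx0⟩ := hne
  obtain ⟨z0, hz0C, hz0B⟩ : ∃ z ∈ C, z ∉ B := by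
    by_contra hcon
    push Not at hcon
    exact hneq (Set.Subset.antisymm hBC hcon)
  obtain ⟨p, hp⟩ := hC x0 (hBC hx0) z0 hz0C
  have key : ∀ {s t : V} (p : G.Walk s t), (∀ z ∈ p.support, z ∈ C) → s ∈ B → t ∉ B →
      ∃ y ∈ B, ∃ z ∈ C, z ∉ B ∧ G.Adj y z := by
    intro s t p
    induction p with
    | nil => intro _ h1 h2; exact absurd h1 h2
    | @cons s s1 t h p ih =>
      intro hp h1 h2
      by_cases h3 : s1 ∈ B
      · exact ih (fun z hz => hp z (by rw [SimpleGraph.Walk.support_cons]; exact List.mem_cons_of_mem _ hz)) h3 h2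
      · refine ⟨s, h1, s1, hp s1 ?_, h3, h⟩
        rw [SimpleGraph.Walk.support_cons]
        exact List.mem_cons_of_mem _ p.start_mem_support
  exact key p hp hx0 hz0B

/-- a class of colourings closed under the Kempe changes avoiding the colour of `v` -/
structure Cl (G : SimpleGraph V) (v : V) (P : (V → Fin 4) → Prop) : Prop where
  proper : ∀ Q, P Q → Proper G Q
  flip : ∀ Q, P Q → ∀ (b g : Fin 4) (W : Set V), b ≠ Q v → g ≠ Q v → Closed G Q b g W →
    P (Helper58.Scheme.flip Q b g W)

theorem third : ∀ h a b : Fin 4, a ≠ h → b ≠ h → a ≠ b → ∃ g, g ≠ h ∧ a ≠ g ∧ b ≠ g ∧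
    ∀ x, x ≠ h → x = a ∨ x = b ∨ x = g := by decide

/-- **Growth.** A connected part `C` of the neighbourhood of `v` can be made bicoloured by Kempe
changes, unless a good colouring is met. -/
theorem grow [Finite V] {v : V} {P : (V → Fin 4) → Prop} (hP : Cl G v P) (hex : ∃ Q, P Q)
    {C : Set V} (hCn : C.Nonempty) (hC : Conn G C) (hCv : ∀ x ∈ C, G.Adj v x) :
    ∃ Q, P Q ∧ (Good G Q ∨ ∃ a b, a ≠ b ∧ a ≠ Q v ∧ b ≠ Q v ∧ Bic Q a b C) := by
  have := Fintype.ofFinite V
  by_contra hcon
  push Not at hcon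
  -- a maximal bicoloured connected part
  let S : Set (Finset V) := {B | ∃ Q a b, P Q ∧ a ≠ b ∧ a ≠ Q v ∧ b ≠ Q v ∧ Bic Q a b (B : Set V) ∧
    Conn G (B : Set V) ∧ (B : Set V) ⊆ C ∧ (B : Set V).Nonempty}
  have hSne : ∃ n, ∃ B ∈ S, n = Fintype.card V - B.card := by
    obtain ⟨Q, hQ⟩ := hex
    obtain ⟨x, hx⟩ := hCn
    have hxv : Q x ≠ Q v := (hP.proper Q hQ _ _ (hCv x hx)).symm
    obtain ⟨b, hb1, hb2⟩ : ∃ b, b ≠ Q v ∧ Q x ≠ b := by
      have : ∀ h a : Fin 4, a ≠ h → ∃ b, b ≠ h ∧ a ≠ b := by decide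
      exact this _ _ hxv
    refine ⟨_, {x}, ⟨Q, Q x, b, hQ, hb2, hxv, hb1, ?_, ?_, ?_, ?_⟩, rfl⟩
    · intro y hy
      rw [Finset.coe_singleton, Set.mem_singleton_iff] at hy
      rw [hy]
      exact Or.inl rfl
    · intro y hy z hz
      rw [Finset.coe_singleton, Set.mem_singleton_iff] at hy hz
      subst hy hz
      exact ⟨SimpleGraph.Walk.nil, fun t ht => by simpa using ht⟩
    · rw [Finset.coe_singleton, Set.singleton_subset_iff]
      exact hx
    · rw [Finset.coe_singleton]
      exact Set.singleton_nonempty _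
  obtain ⟨B, ⟨Q, a, b, hQ, hab, hah, hbh, hBic, hBc, hBC, hBn⟩, hBm⟩ := Nat.find_spec hSne
  have hmax : ∀ B' ∈ S, B'.card ≤ B.card := by
    intro B' hB'
    have h1 := Nat.find_min' hSne ⟨B', hB', rfl⟩
    have h2 : B'.card ≤ Fintype.card V := Finset.card_le_univ _
    have h3 : B.card ≤ Fintype.card V := Finset.card_le_univ _
    omega
  have hneq : (B : Set V) ≠ C := by
    intro h
    rw [h] at hBic
    exact (hcon Q hQ).2 a b hab hah hbh hBic
  obtain ⟨y, hyB, z, hzC, hzB, hyz⟩ := exists_exit hC hBC hBn hneq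
  have hp := hP.proper Q hQ
  obtain ⟨g, hgh, hag, hbg, hall⟩ := third (Q v) a b hah hbh hab
  -- symmetric in `a`, `b`
  have main : ∀ a b : Fin 4, a ≠ b → a ≠ Q v → b ≠ Q v → a ≠ g → b ≠ g →
      (∀ x, x ≠ Q v → x = a ∨ x = b ∨ x = g) → Bic Q a b (B : Set V) → Q y = a → False := by
    intro a b hab hah hbh hag hbg hall hBic hya
    have hz : Q z = a ∨ Q z = b ∨ Q z = g := hall _ (hp _ _ (hCv z hzC)).symm
    have hcard : (insert z B).card = B.card + 1 := by
      rw [Finset.card_insert_of_notMem hzB]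
    have hsub : ((insert z B : Finset V) : Set V) ⊆ C := by
      rw [Finset.coe_insert]
      exact Set.insert_subset hzC hBC
    have hconn : Conn G ((insert z B : Finset V) : Set V) := by
      rw [Finset.coe_insert]
      exact conn_insert hBc hyB hyz
    have hne' : ((insert z B : Finset V) : Set V).Nonempty :=
      ⟨z, by rw [Finset.coe_insert]; exact Or.inl rfl⟩
    rcases hz with hz | hz | hz
    · exact hp _ _ hyz (hya.trans hz.symm)
    · have h1 := hmax (insert z B) ⟨Q, a, b, hQ, hab, hah, hbh, ?_, hconn, hsub, hne'⟩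
      · omega
      · intro x hx
        rw [Finset.coe_insert] at hx
        rcases hx with rfl | hx
        · exact Or.inr hz
        · exact hBic x hx
    · -- flip the `(b, g)`-component of `z`
      have hmiss : ∀ w ∈ (B : Set V), w ∉ Comp G Q b g z := by
        intro w hw hwc
        have hwb : Q w = b := by
          rcases hBic w hw with h | h
          · rcases (comp_closed Q b g z).1 w hwc with h' | h'
            · exact h'
            · exact absurd (h.symm.trans h') hag
          · exact h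
        have hl : Linked G Q w z := by
          obtain ⟨p, hp'⟩ := hwc
          refine Linked.symm ⟨p, fun t ht => ?_⟩
          rw [hz, hwb]
          exact (hp' t ht).symm
        refine (hcon Q hQ).1 (good_of_four (a := v) (b := y) (c := w) (d := z)
          (by rw [hya]; exact hah.symm) (by rw [hwb]; exact hbh.symm)
          (by rw [hz]; exact hgh.symm) (by rw [hya, hwb]; exact hab)
          (by rw [hya, hz]; exact hag) (by rw [hwb, hz]; exact hbg)
          (Linked.of_adj (hCv y (hBC hyB))) (Linked.of_adj (hCv w (hBC hw)))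
          (Linked.of_adj (hCv z hzC)) (hBic.linked hBc hyB hw (by rw [hya, hwb]; exact hab))
          (Linked.of_adj hyz) hl)
      have hclosed := comp_closed (G := G) Q b g z
      have hQ' := hP.flip Q hQ b g _ hbh hgh hclosed
      have hvn : v ∉ Comp G Q b g z := by
        intro h
        rcases hclosed.1 v h with h' | h'
        · exact hbh h'.symm
        · exact hgh h'.symm
      have hv' : Helper58.Scheme.flip Q b g (Comp G Q b g z) v = Q v := flip_of_notMem hvn
      have h1 := hmax (insert z B) ⟨_, a, b, hQ', hab, by rw [hv']; exact hah,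
        by rw [hv']; exact hbh, ?_, hconn, hsub, hne'⟩
      · omega
      · intro x hx
        rw [Finset.coe_insert] at hx
        rcases hx with rfl | hx
        · right
          rw [flip_of_mem (self_mem_comp (Or.inr hz)), hz, Equiv.swap_apply_right]
        · rw [flip_of_notMem (hmiss x hx)]
          exact hBic x hx
  rcases hBic y hyB with h | h
  · exact main a b hab hah hbh hag hbg hall hBic h
  · exact main b a hab.symm hbh hah hbg hag (fun x hx => by
      rcases hall x hx with h | h | h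
      · exact Or.inr (Or.inl h)
      · exact Or.inl h
      · exact Or.inr (Or.inr h)) (fun x hx => (hBic x hx).symm) h

theorem conn_of_preconnected {B : Set V} (h : (G.induce B).Preconnected) : Conn G B := by
  intro x hx y hy
  obtain ⟨p⟩ := h ⟨x, hx⟩ ⟨y, hy⟩
  let f : G.induce B →g G := ⟨fun x => x.1, fun h => h⟩
  refine ⟨p.map f, fun z hz => ?_⟩
  rw [SimpleGraph.Walk.support_map, List.mem_map] at hz
  obtain ⟨t, -, rfl⟩ := hz
  exact t.2

/-- **Odd wheels.** -/
theorem odd_wheel [Finite V] (G : SimpleGraph V) (h4 : G.Colorable 4) (v : V)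
    (hv : ¬ (G.induce (G.neighborSet v)).Colorable 2) : Nonempty (ChromaticFourScheme G) := by
  obtain ⟨K⟩ := h4
  rw [SimpleGraph.colorable_iff_forall_connectedComponent] at hv
  push Not at hv
  obtain ⟨κ, hκ⟩ := hv
  -- the component as a set of vertices of `G`
  let C : Set V := {x | ∃ h : G.Adj v x, (⟨x, h⟩ : G.neighborSet v) ∈ κ.supp}
  have hC : Conn G C := by
    rintro x ⟨hx, hx'⟩ y ⟨hy, hy'⟩
    obtain ⟨p⟩ := κ.connected_toSimpleGraph ⟨⟨x, hx⟩, hx'⟩ ⟨⟨y, hy⟩, hy'⟩
    let f : κ.toSimpleGraph →g G := ⟨fun x => x.1.1, fun h => h⟩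
    refine ⟨p.map f, fun z hz => ?_⟩
    rw [SimpleGraph.Walk.support_map, List.mem_map] at hz
    obtain ⟨t, -, rfl⟩ := hz
    exact ⟨t.1.2, t.2⟩
  have hCn : C.Nonempty := by
    obtain ⟨x, hx⟩ := κ.nonempty_supp
    exact ⟨x.1, x.2, hx⟩
  obtain ⟨Q, hQ, hg | ⟨a, b, hab, -, -, hbic⟩⟩ := grow (G := G) (v := v) (P := Proper G)
    ⟨fun _ h => h, fun _ h _ _ _ _ _ hW => flip_proper h hW⟩
    ⟨fun x => K x, fun x y hxy => K.valid hxy⟩ hCn hC (fun x hx => hx.1)
  · exact scheme_of_good hQ hg
  · exfalso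
    apply hκ
    refine ⟨SimpleGraph.Coloring.mk (fun x => if Q x.1.1 = a then (0 : Fin 2) else 1) ?_⟩
    intro x y hxy h
    have h1 : G.Adj x.1.1 y.1.1 := hxy
    have h2 := hQ _ _ h1
    have h3 := hbic x.1.1 ⟨x.1.2, x.2⟩
    have h4 := hbic y.1.1 ⟨y.1.2, y.2⟩
    rcases h3 with h3 | h3 <;> rcases h4 with h4 | h4
    · exact h2 (h3.trans h4.symm)
    · rw [if_pos h3, if_neg (fun h' => hab (h'.symm.trans h4))] at h
      exact absurd h (by decide)
    · rw [if_neg (fun h' => hab (h'.symm.trans h3)), if_pos h4] at h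
      exact absurd h (by decide)
    · exact h2 (h3.trans h4.symm)

end Pool.Agent.Helper57.Force
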