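import Pool.Agent.Helper57.Force.Defs
import Pool.Agent.Helper57.Force.Grow

set_option autoImplicit false

namespace Pool.Agent.Helper57.Force

open Pool.Agent.Helper58.Scheme
open scoped Classical

universe u

variable {V : Type u} {G : SimpleGraph V}

theorem conn_union_comm {A B : Set V} (h : Conn G (A ∪ B)) : Conn G (B ∪ A) := by
  rw [Set.union_comm]
  exact h

theorem conn_insert_right {A C : Set V} (hc : Conn G (A ∪ C)) {y z : V} (hy : y ∈ A)
    (hyz : G.Adj z y) : Conn G (A ∪ insert z C) := by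
  rw [Set.union_insert]
  exact conn_insert hc (Or.inl hy) hyz.symm

/-- connectivity of two of the three classes -/
theorem Forced.conn {A B C : Set V} (h : Forced G A B C) :
    Conn G (A ∪ B) ∧ Conn G (B ∪ C) ∧ Conn G (A ∪ C) := by
  induction h with
  | edge x y hxy =>
    have h1 : ∀ x : V, Conn G {x} := by
      intro x a ha b hb
      rw [Set.mem_singleton_iff] at ha hb
      subst ha hb
      exact ⟨SimpleGraph.Walk.nil, fun t ht => by simpa using ht⟩
    refine ⟨?_, ?_, ?_⟩
    · rw [Set.union_comm, Set.union_singleton]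
      have := conn_insert (h1 y) (Set.mem_singleton y) hxy.symm
      convert this using 1
    · rw [Set.union_empty]
      exact h1 y
    · rw [Set.union_empty]
      exact h1 x
  | swap A B C _ ih => exact ⟨conn_union_comm ih.1, ih.2.2, ih.2.1⟩
  | rotate A B C _ ih => exact ⟨ih.2.1, conn_union_comm ih.2.2, conn_union_comm ih.1⟩
  | add A B C z a b _ ha hb hza hzb ih =>
    exact ⟨ih.1, conn_insert_right ih.2.1 hb hzb, conn_insert_right ih.2.2 ha hza⟩

/-- the classes have three different colours -/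
def Flat (Q : V → Fin 4) (A B C : Set V) : Prop :=
  ∃ a b g : Fin 4, a ≠ b ∧ a ≠ g ∧ b ≠ g ∧ (∀ x ∈ A, Q x = a) ∧ (∀ x ∈ B, Q x = b) ∧
    ∀ x ∈ C, Q x = g

theorem fourth : ∀ a b g : Fin 4, a ≠ b → a ≠ g → b ≠ g → ∃ d, d ≠ a ∧ d ≠ b ∧ d ≠ g ∧
    ∀ x, x = a ∨ x = b ∨ x = g ∨ x = d := by decide

/-- **Growth of flat sets.** -/
theorem forced_flat {A B C : Set V} (h : Forced G A B C) (hex : ∃ Q, Proper G Q) :
    ∃ Q, Proper G Q ∧ (Good G Q ∨ Flat Q A B C) := by
  induction h with
  | edge x y hxy =>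
    obtain ⟨Q, hQ⟩ := hex
    have hne := hQ _ _ hxy
    obtain ⟨g, h1, h2⟩ : ∃ g, g ≠ Q x ∧ g ≠ Q y := by
      have : ∀ a b : Fin 4, ∃ g, g ≠ a ∧ g ≠ b := by decide
      exact this _ _
    refine ⟨Q, hQ, Or.inr ⟨Q x, Q y, g, hne, h1.symm, h2.symm, ?_, ?_, ?_⟩⟩
    · intro z hz
      rw [Set.mem_singleton_iff] at hz
      rw [hz]
    · intro z hz
      rw [Set.mem_singleton_iff] at hz
      rw [hz]
    · intro z hz
      exact absurd hz (Set.notMem_empty z)
  | swap A B C _ ih =>
    obtain ⟨Q, hQ, hg | ⟨a, b, g, h1, h2, h3, h4, h5, h6⟩⟩ := ih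
    · exact ⟨Q, hQ, Or.inl hg⟩
    · exact ⟨Q, hQ, Or.inr ⟨b, a, g, h1.symm, h3, h2, h5, h4, h6⟩⟩
  | rotate A B C _ ih =>
    obtain ⟨Q, hQ, hg | ⟨a, b, g, h1, h2, h3, h4, h5, h6⟩⟩ := ih
    · exact ⟨Q, hQ, Or.inl hg⟩
    · exact ⟨Q, hQ, Or.inr ⟨b, g, a, h3, h1.symm, h2.symm, h5, h6, h4⟩⟩
  | add A B C z x y hF hx hy hzx hzy ih =>
    obtain ⟨Q, hQ, hg | ⟨a, b, g, hab, hag, hbg, hA, hB, hC⟩⟩ := ih
    · exact ⟨Q, hQ, Or.inl hg⟩
    obtain ⟨cAB, cBC, cAC⟩ := hF.conn
    obtain ⟨d, hda, hdb, hdg, hall⟩ := fourth a b g hab hag hbg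
    have hxa := hA x hx
    have hyb := hB y hy
    have hza : Q z ≠ a := fun h => hQ _ _ hzx (h.trans hxa.symm)
    have hzb : Q z ≠ b := fun h => hQ _ _ hzy (h.trans hyb.symm)
    have hz : Q z = g ∨ Q z = d := by
      rcases hall (Q z) with h | h | h | h
      · exact absurd h hza
      · exact absurd h hzb
      · exact Or.inl h
      · exact Or.inr h
    rcases hz with hz | hz
    · refine ⟨Q, hQ, Or.inr ⟨a, b, g, hab, hag, hbg, hA, hB, ?_⟩⟩
      intro t ht
      rcases ht with rfl | ht
      · exact hz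
      · exact hC t ht
    · by_cases hw : ∃ w ∈ C, w ∈ Comp G Q g d z
      · obtain ⟨w, hwC, hwz⟩ := hw
        have hwg := hC w hwC
        refine ⟨Q, hQ, Or.inl ?_⟩
        have bAB : Bic Q a b (A ∪ B) := by
          rintro t (ht | ht)
          · exact Or.inl (hA t ht)
          · exact Or.inr (hB t ht)
        have bBC : Bic Q b g (B ∪ C) := by
          rintro t (ht | ht)
          · exact Or.inl (hB t ht)
          · exact Or.inr (hC t ht)
        have bAC : Bic Q a g (A ∪ C) := by
          rintro t (ht | ht)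
          · exact Or.inl (hA t ht)
          · exact Or.inr (hC t ht)
        have lwz : Linked G Q w z := by
          refine linked_of_mem_comp (i := g) (j := d) hwg hz ?_
          obtain ⟨p, hp⟩ := hwz
          refine ⟨p.reverse, fun t ht => hp t ?_⟩
          rwa [SimpleGraph.Walk.support_reverse, List.mem_reverse] at ht
        exact good_of_four (a := x) (b := y) (c := w) (d := z)
          (by rw [hxa, hyb]; exact hab) (by rw [hxa, hwg]; exact hag)
          (by rw [hxa, hz]; exact hda.symm) (by rw [hyb, hwg]; exact hbg)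
          (by rw [hyb, hz]; exact hdb.symm) (by rw [hwg, hz]; exact hdg.symm)
          (bAB.linked cAB (Or.inl hx) (Or.inr hy) (by rw [hxa, hyb]; exact hab))
          (bAC.linked cAC (Or.inl hx) (Or.inr hwC) (by rw [hxa, hwg]; exact hag))
          (Linked.of_adj hzx.symm)
          (bBC.linked cBC (Or.inl hy) (Or.inr hwC) (by rw [hyb, hwg]; exact hbg))
          (Linked.of_adj hzy.symm) lwz
      · push Not at hw
        have hclosed := comp_closed (G := G) Q g d z
        have hmiss : ∀ t, Q t ≠ g → Q t ≠ d → t ∉ Comp G Q g d z := by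
          intro t h1 h2 h3
          rcases hclosed.1 t h3 with h | h
          · exact h1 h
          · exact h2 h
        refine ⟨Helper58.Scheme.flip Q g d (Comp G Q g d z), flip_proper hQ hclosed,
          Or.inr ⟨a, b, g, hab, hag, hbg, ?_, ?_, ?_⟩⟩
        · intro t ht
          rw [flip_of_notMem (hmiss t (by rw [hA t ht]; exact hag)
            (by rw [hA t ht]; exact hda.symm))]
          exact hA t ht
        · intro t ht
          rw [flip_of_notMem (hmiss t (by rw [hB t ht]; exact hbg)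
            (by rw [hB t ht]; exact hdb.symm))]
          exact hB t ht
        · intro t ht
          rcases ht with rfl | ht
          · rw [flip_of_mem (self_mem_comp (Or.inr hz)), hz, Equiv.swap_apply_right]
          · rw [flip_of_notMem (hw t ht)]
            exact hC t ht

theorem main_forced (G : SimpleGraph V) (h4 : G.Colorable 4) {A B C : Set V}
    (hF : Forced G A B C) (hn : ¬ (G.induce (A ∪ B ∪ C)).Colorable 3) :
    Nonempty (ChromaticFourScheme G) := by
  obtain ⟨K⟩ := h4
  obtain ⟨Q, hQ, hg | ⟨a, b, g, hab, hag, hbg, hA, hB, hC⟩⟩ :=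
    forced_flat hF ⟨fun x => K x, fun x y hxy => K.valid hxy⟩
  · exact scheme_of_good hQ hg
  · exfalso
    apply hn
    refine ⟨SimpleGraph.Coloring.mk
      (fun x => if Q x.1 = a then (0 : Fin 3) else if Q x.1 = b then 1 else 2) ?_⟩
    intro x y hxy h
    have h1 : G.Adj x.1 y.1 := hxy
    have h2 := hQ _ _ h1
    have hcol : ∀ t : (A ∪ B ∪ C : Set V), Q t.1 = a ∨ Q t.1 = b ∨ Q t.1 = g := by
      rintro ⟨t, (ht | ht) | ht⟩
      · exact Or.inl (hA t ht)
      · exact Or.inr (Or.inl (hB t ht))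
      · exact Or.inr (Or.inr (hC t ht))
    rcases hcol x with hx | hx | hx <;> rcases hcol y with hy | hy | hy <;>
      simp [hx, hy, hab.symm, hag.symm, hbg.symm] at h h2

end Pool.Agent.Helper57.Force
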