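import Pool.Agent.Helper57.Force.Forced
import Pool.Agent.Helper58.Scheme.Root

set_option autoImplicit false

namespace Pool.Agent.Helper57.Force

open Pool.Agent.Helper58.Scheme
open scoped Classical

universe u

variable {V : Type u} {G : SimpleGraph V}

theorem good_deg_three [Fintype V] {v : V} {Q : V → Fin 4} (hm : Helper58.Scheme.Mini G Q)
    (hv : Q v = 3) (hd : (G.neighborSet v).ncard ≤ 3) : Good G Q := by
  obtain ⟨a0, hva0, ha0⟩ := hm.sees hv (i := 0) (by decide)
  obtain ⟨a1, hva1, ha1⟩ := hm.sees hv (i := 1) (by decide)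
  obtain ⟨a2, hva2, ha2⟩ := hm.sees hv (i := 2) (by decide)
  have h01 : a0 ≠ a1 := fun e => by rw [e, ha1] at ha0; exact absurd ha0 (by decide)
  have h02 : a0 ≠ a2 := fun e => by rw [e, ha2] at ha0; exact absurd ha0 (by decide)
  have h12 : a1 ≠ a2 := fun e => by rw [e, ha2] at ha1; exact absurd ha1 (by decide)
  have huniq : ∀ y, G.Adj v y → y = a0 ∨ y = a1 ∨ y = a2 := by
    intro y hy
    by_contra hcon
    push Not at hcon
    have h5 : ({y, a0, a1, a2} : Set V) ⊆ G.neighborSet v := by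
      intro z hz
      simp only [Set.mem_insert_iff, Set.mem_singleton_iff] at hz
      rcases hz with rfl | rfl | rfl | rfl
      · exact hy
      · exact hva0
      · exact hva1
      · exact hva2
    have h6 := Set.ncard_le_ncard h5 (Set.toFinite _)
    have h7 : ({y, a0, a1, a2} : Set V).ncard = 4 := by
      rw [Set.ncard_insert_of_notMem, Set.ncard_insert_of_notMem, Set.ncard_pair h12]
      · simp [h01, h02]
      · simp [hcon.1, hcon.2.1, hcon.2.2]
    omega
  have u0 : ∀ y, G.Adj v y → Q y = 0 → y = a0 := by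
    intro y hy hy0
    rcases huniq y hy with h | h | h
    · exact h
    · rw [h, ha1] at hy0; exact absurd hy0 (by decide)
    · rw [h, ha2] at hy0; exact absurd hy0 (by decide)
  have u1 : ∀ y, G.Adj v y → Q y = 1 → y = a1 := by
    intro y hy hy0
    rcases huniq y hy with h | h | h
    · rw [h, ha0] at hy0; exact absurd hy0 (by decide)
    · exact h
    · rw [h, ha2] at hy0; exact absurd hy0 (by decide)
  have u2 : ∀ y, G.Adj v y → Q y = 2 → y = a2 := by
    intro y hy hy0
    rcases huniq y hy with h | h | h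
    · rw [h, ha0] at hy0; exact absurd hy0 (by decide)
    · rw [h, ha1] at hy0; exact absurd hy0 (by decide)
    · exact h
  have hc : Helper58.Scheme.Cols 0 1 2 := by constructor <;> decide
  exact good_root hc hv ha0 ha1 ha2 hva0 hva1 hva2
    (hm.linked hv (by decide) (by decide) (by decide) ha0 ha1 u0 u1)
    (hm.linked hv (by decide) (by decide) (by decide) ha0 ha2 u0 u2)
    (hm.linked hv (by decide) (by decide) (by decide) ha1 ha2 u1 u2)

/-- a vertex of the smallest colour class whose neighbourhood is connected up to one vertex -/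
theorem good_nearly [Finite V] [Fintype V] {v : V} {Q0 : V → Fin 4}
    (hQ0 : Helper58.Scheme.Mini G Q0) (hv0 : Q0 v = 3) {x : V}
    (hx : (G.induce (G.neighborSet v \ {x})).Preconnected) :
    ∃ Q, Proper G Q ∧ Good G Q := by
  have hC := conn_of_preconnected hx
  have hCn : (G.neighborSet v \ {x}).Nonempty := by
    obtain ⟨y0, h0, e0⟩ := hQ0.sees hv0 (i := 0) (by decide)
    obtain ⟨y1, h1, e1⟩ := hQ0.sees hv0 (i := 1) (by decide)
    by_cases h : y0 = x
    · refine ⟨y1, h1, fun h' => ?_⟩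
      rw [Set.mem_singleton_iff] at h'
      rw [h', ← h, e0] at e1
      exact absurd e1 (by decide)
    · exact ⟨y0, h0, h⟩
  have hP : Cl G v (fun Q => Helper58.Scheme.Mini G Q ∧ Q v = 3) := by
    refine ⟨fun Q h => h.1.1, ?_⟩
    intro Q h b g W hb hg hW
    rw [h.2] at hb hg
    exact ⟨h.1.flip hb hg hW, (flip_eq_three hb hg hW.1 v).2 h.2⟩
  obtain ⟨Q, ⟨hQ, hv⟩, hg | ⟨a, b, hab, ha, hb, hbic⟩⟩ :=
    grow hP ⟨Q0, hQ0, hv0⟩ hCn hC (fun y hy => hy.1)
  · exact ⟨Q, hQ.1, hg⟩
  obtain ⟨g, hgv, hag, hbg, hall⟩ := third (Q v) a b ha hb hab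
  rw [hv] at ha hb hgv
  have hgx : ∀ y, G.Adj v y → Q y = g → y = x := by
    intro y hy hyg
    by_contra hne
    rcases hbic y ⟨hy, hne⟩ with h | h
    · exact hag (h.symm.trans hyg)
    · exact hbg (h.symm.trans hyg)
  obtain ⟨x', hx', hx'g⟩ := hQ.sees hv hgv
  have hxx := hgx x' hx' hx'g
  subst hxx
  have hlink : ∀ e, e ≠ 3 → g ≠ e → ∃ y, G.Adj v y ∧ Q y = e ∧ Linked G Q x' y := by
    intro e he hge
    by_contra hcon
    push Not at hcon
    refine hQ.irr hv hgv he hge (comp_closed Q g e x') ?_ ?_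
    · intro t ht htg
      rw [hgx t ht htg]
      exact self_mem_comp (Or.inl hx'g)
    · intro t ht hte hmem
      exact hcon t ht hte (linked_of_mem_comp hx'g hte hmem)
  obtain ⟨y1, hy1, hy1a, l1⟩ := hlink a ha hag.symm
  obtain ⟨y2, hy2, hy2b, l2⟩ := hlink b hb hbg.symm
  have hne1 : y1 ∈ G.neighborSet v \ {x'} := ⟨hy1, fun h => by
    rw [Set.mem_singleton_iff] at h
    rw [h, hx'g] at hy1a
    exact hag hy1a.symm⟩
  have hne2 : y2 ∈ G.neighborSet v \ {x'} := ⟨hy2, fun h => by
    rw [Set.mem_singleton_iff] at h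
    rw [h, hx'g] at hy2b
    exact hbg hy2b.symm⟩
  refine ⟨Q, hQ.1, good_of_four (a := v) (b := x') (c := y1) (d := y2)
    (by rw [hv, hx'g]; exact hgv.symm) (by rw [hv, hy1a]; exact ha.symm)
    (by rw [hv, hy2b]; exact hb.symm) (by rw [hx'g, hy1a]; exact hag.symm)
    (by rw [hx'g, hy2b]; exact hbg.symm) (by rw [hy1a, hy2b]; exact hab)
    (Linked.of_adj hx') (Linked.of_adj hy1) (Linked.of_adj hy2) l1 l2
    (hbic.linked hC hne1 hne2 (by rw [hy1a, hy2b]; exact hab))⟩

theorem main_nearly [Finite V] (G : SimpleGraph V) (hχ : G.chromaticNumber = 4)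
    (hY : ¬ (G.induce {v | NearlyConnectedNbhd G v}).Colorable 3) :
    Nonempty (ChromaticFourScheme G) := by
  have := Fintype.ofFinite V
  have h4 : G.Colorable 4 := by
    rw [← SimpleGraph.chromaticNumber_le_iff_colorable, hχ]; rfl
  obtain ⟨C⟩ := h4
  obtain ⟨Q, hQ⟩ := Helper58.Scheme.exists_mini
    (G := G) ⟨fun x => C x, fun x y hxy => C.valid hxy⟩
  obtain ⟨v, hv, hv3⟩ : ∃ v, NearlyConnectedNbhd G v ∧ Q v = 3 := by
    by_contra hcon
    push Not at hcon
    apply hY
    refine ⟨SimpleGraph.Coloring.mk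
      (fun x => (⟨(Q x.1).val, ?_⟩ : Fin 3)) ?_⟩
    · have h1 := hcon x.1 x.2
      have h2 := (Q x.1).isLt
      rcases Nat.lt_or_ge (Q x.1).val 3 with h | h
      · exact h
      · exact absurd (Fin.ext (by simp; omega)) h1
    · intro a b hab h
      apply hQ.1 a.1 b.1 hab
      have := congrArg Fin.val h
      exact Fin.ext this
  rcases hv with hv | ⟨x, hx⟩
  · exact scheme_of_good hQ.1 (good_deg_three hQ hv3 hv)
  · obtain ⟨Q', hQ', hg⟩ := good_nearly hQ hv3 hx
    exact scheme_of_good hQ' hg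

end Pool.Agent.Helper57.Force
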